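import Pool.Agent.Helper43.LO.Goals

set_option autoImplicit false

namespace Pool.Agent.Helper8.LO

open Finset Pool.Agent.Helper33.Schur Pool.Agent.Helper43.LO

lemma sum_right (c : ℕ) (S : Finset ℕ) :
    (∀ x ∈ S, c < x) → (S.card : ℤ) ^ 2 ≤ 2 * ∑ x ∈ S, ((x : ℤ) - c) := by
  induction S using Finset.induction_on_max with
  | empty => intro _; simp
  | insert a s hlt ih =>
    intro h
    have hna : a ∉ s := fun ha => lt_irrefl _ (hlt a ha)
    have h1 : ∀ x ∈ s, c < x := fun x hx => h x (mem_insert_of_mem hx)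
    have hca : c < a := h a (mem_insert_self _ _)
    have ih1 := ih h1
    have hsub : s ⊆ Ioo c a := by
      intro x hx
      rw [mem_Ioo]
      exact ⟨h1 x hx, hlt x hx⟩
    have hc := card_le_card hsub
    rw [Nat.card_Ioo] at hc
    have hc2 : (s.card : ℤ) + 1 ≤ (a : ℤ) - c := by omega
    rw [card_insert_of_notMem hna, sum_insert hna]
    push_cast
    nlinarith

lemma sum_left (c : ℕ) (S : Finset ℕ) :
    (∀ x ∈ S, x ≤ c) → (S.card : ℤ) ^ 2 - S.card ≤ 2 * ∑ x ∈ S, ((c : ℤ) - x) := by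
  induction S using Finset.induction_on_min with
  | empty => intro _; simp
  | insert a s hlt ih =>
    intro h
    have hna : a ∉ s := fun ha => lt_irrefl _ (hlt a ha)
    have h1 : ∀ x ∈ s, x ≤ c := fun x hx => h x (mem_insert_of_mem hx)
    have hca : a ≤ c := h a (mem_insert_self _ _)
    have ih1 := ih h1
    have hsub : s ⊆ Ioc a c := by
      intro x hx
      rw [mem_Ioc]
      exact ⟨hlt x hx, h1 x hx⟩
    have hc := card_le_card hsub
    rw [Nat.card_Ioc] at hc
    have hc2 : (s.card : ℤ) ≤ (c : ℤ) - a := by omega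
    rw [card_insert_of_notMem hna, sum_insert hna]
    push_cast
    nlinarith

lemma e_inj (i j : Fin 6) (h : i ≠ j) : e i + 1 ≤ e j ∨ e j + 1 ≤ e i := by
  revert i j
  decide

lemma e_pos (i : Fin 6) : 1 ≤ e i := by
  revert i
  decide

lemma blk_r (i : Fin 6) : blk (e i) = rc i := by
  revert i
  decide

lemma blk_l (i : Fin 6) : blk (e i - 1) = lc i := by
  revert i
  decide

lemma lr_ne (i : Fin 6) : lc i ≠ rc i := by
  revert i
  decide

lemma sl_nonneg (i : Fin 6) : 0 ≤ sl i := by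
  revert i
  decide

lemma sl_le (i : Fin 6) : sl i ≤ 3 := by
  revert i
  decide

lemma colR (m : ℕ) (_hm : 1 ≤ m) (i : Fin 6) (x : ℕ) (q : Fin 3) (h : isR m i x q) :
    q ≠ col m x := by
  obtain ⟨h1, h2, h3⟩ := h
  have hd : (x - 1) / m = e i := by
    apply Nat.div_eq_of_lt_le
    · omega
    · have : 4 * x ≤ 4 * (e i * m) + m := by
        have : (4 * e i + 1) * m = 4 * (e i * m) + m := by ring
        omega
      have h5 : (e i + 1) * m = e i * m + m := by ring
      omega
  unfold col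
  rw [hd, blk_r, h3]
  exact lr_ne i

lemma colL (m : ℕ) (hm : 1 ≤ m) (i : Fin 6) (x : ℕ) (q : Fin 3) (h : isL m i x q) (hx : 1 ≤ x) :
    q ≠ col m x := by
  obtain ⟨h1, h2, h3⟩ := h
  have hp := e_pos i
  obtain ⟨f, hf⟩ : ∃ f, e i = f + 1 := ⟨e i - 1, by omega⟩
  have hd : (x - 1) / m = e i - 1 := by
    rw [hf] at h1 h2 ⊢
    have h4 : 4 * (f + 1) * m = 4 * (f * m) + 4 * m := by ring
    have h5 : (f + 1) * m = f * m + m := by ring
    apply Nat.div_eq_of_lt_le
    · simp only [Nat.add_sub_cancel]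
      omega
    · simp only [Nat.add_sub_cancel]
      omega
  unfold col
  rw [hd, blk_l, h3]
  exact (lr_ne i).symm

lemma near (m : ℕ) (i : Fin 6) (x : ℕ) (q : Fin 3) (h : isR m i x q ∨ isL m i x q) :
    4 * (e i * m) < 4 * x + m ∧ 4 * x ≤ 4 * (e i * m) + m := by
  have h5 : (4 * e i + 1) * m = 4 * (e i * m) + m := by ring
  have h6 : 4 * e i * m = 4 * (e i * m) := by ring
  rcases h with ⟨h1, h2, _⟩ | ⟨h1, h2, _⟩
  · omega
  · omega

lemma uniq (m : ℕ) (hm : 1 ≤ m) (i j : Fin 6) (x : ℕ) (q : Fin 3)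
    (h : isR m i x q ∨ isL m i x q) (h' : isR m j x q ∨ isL m j x q) : i = j := by
  by_contra hne
  have h1 := near m i x q h
  have h2 := near m j x q h'
  rcases e_inj i j hne with h3 | h3
  · have h4 : (e i + 1) * m ≤ e j * m := Nat.mul_le_mul_right m h3
    have h5 : (e i + 1) * m = e i * m + m := by ring
    omega
  · have h4 : (e j + 1) * m ≤ e i * m := Nat.mul_le_mul_right m h3
    have h5 : (e j + 1) * m = e j * m + m := by ring
    omega

lemma not_both (m : ℕ) (i : Fin 6) (x : ℕ) (q : Fin 3) (h : isR m i x q) : ¬ isL m i x q := by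
  intro h'
  have := h.1
  have := h'.1
  omega

/-- splitting of a sum over the set of differences -/
lemma split (m : ℕ) (χ : ℕ → Fin 3) (hm : 1 ≤ m)
    (H : ∀ x ∈ dif (67 * m) χ (col m), ∃ i : Fin 6, isR m i x (χ x) ∨ isL m i x (χ x))
    (g : ℕ → ℤ) :
    ∑ x ∈ dif (67 * m) χ (col m), g x =
      ∑ i : Fin 6, (∑ x ∈ ER m χ i, g x + ∑ x ∈ EL m χ i, g x) := by
  have hER : ∀ i, ER m χ i = (dif (67 * m) χ (col m)).filter (fun x => isR m i x (χ x)) := by
    intro i
    ext x
    simp only [ER, dif, mem_filter]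
    constructor
    · rintro ⟨h1, h2⟩
      exact ⟨⟨h1, colR m hm i x _ h2⟩, h2⟩
    · rintro ⟨⟨h1, _⟩, h2⟩
      exact ⟨h1, h2⟩
  have hEL : ∀ i, EL m χ i = (dif (67 * m) χ (col m)).filter (fun x => isL m i x (χ x)) := by
    intro i
    ext x
    simp only [EL, dif, mem_filter]
    constructor
    · rintro ⟨h1, h2⟩
      exact ⟨⟨h1, colL m hm i x _ h2 (mem_Icc.1 h1).1⟩, h2⟩
    · rintro ⟨⟨h1, _⟩, h2⟩
      exact ⟨h1, h2⟩
  have h1 : ∀ i : Fin 6, (∑ x ∈ ER m χ i, g x + ∑ x ∈ EL m χ i, g x) =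
      ∑ x ∈ dif (67 * m) χ (col m), ((if isR m i x (χ x) then g x else 0)
        + (if isL m i x (χ x) then g x else 0)) := by
    intro i
    rw [hER i, hEL i, sum_filter, sum_filter, ← sum_add_distrib]
  rw [sum_congr rfl (fun i _ => h1 i), sum_comm]
  apply sum_congr rfl
  intro x hx
  obtain ⟨i, hi⟩ := H x hx
  rw [sum_eq_single i]
  · rcases hi with hi | hi
    · rw [if_pos hi, if_neg (not_both m i x _ hi), add_zero]
    · rw [if_pos hi, if_neg (fun h => not_both m i x _ h hi), zero_add]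
  · intro j _ hj
    have h3 : ¬ isR m j x (χ x) := fun h => hj (uniq m hm j i x _ (Or.inl h) hi)
    have h4 : ¬ isL m j x (χ x) := fun h => hj (uniq m hm j i x _ (Or.inr h) hi)
    rw [if_neg h3, if_neg h4, add_zero]
  · intro h
    exact absurd (mem_univ i) h

theorem goalEND (hGAP : G_GAP) (hEXP : G_EXP) (hQF : G_QF) (hPSD : G_PSD) : G_END := by
  intro m χ hm H
  have hE := hEXP (67 * m) χ (col m)
  have hQ := hQF m χ hm H
  have hP := hPSD (fun i => ((EL m χ i).card : ℤ)) (fun i => ((ER m χ i).card : ℤ))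
    (fun i => by positivity) (fun i => by positivity)
  have hcard : ((dif (67 * m) χ (col m)).card : ℤ) =
      ∑ i : Fin 6, (((EL m χ i).card : ℤ) + (ER m χ i).card) := by
    have := split m χ hm H (fun _ => 1)
    simp only [sum_const, nsmul_eq_mul, mul_one] at this
    rw [this]
    apply sum_congr rfl
    intro i _
    ring
  have hgap : ∑ z ∈ dif (67 * m) χ (col m),
      ((W (67 * m) (col m) (χ z) z : ℤ) - W (67 * m) (col m) (col m z) z) =
      ∑ z ∈ dif (67 * m) χ (col m), gap m (χ z) z := rfl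
  rw [hgap, split m χ hm H] at hE
  have hi : ∀ i : Fin 6, sl i * (((EL m χ i).card : ℤ) ^ 2 + ((ER m χ i).card : ℤ) ^ 2)
      - 23 * (((EL m χ i).card : ℤ) + (ER m χ i).card) ≤
      2 * (∑ x ∈ ER m χ i, gap m (χ x) x + ∑ x ∈ EL m χ i, gap m (χ x) x) := by
    intro i
    have hR : ∑ x ∈ ER m χ i, (sl i * ((x : ℤ) - (e i * m : ℕ)) - 10) ≤
        ∑ x ∈ ER m χ i, gap m (χ x) x := by
      apply sum_le_sum
      intro x hx
      simp only [ER, mem_filter, mem_Icc] at hx
      have h1 := (hGAP m x (χ x) hm hx.1.1 hx.1.2 (colR m hm i x _ hx.2)).1 i hx.2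
      push_cast
      exact h1
    have hL : ∑ x ∈ EL m χ i, (sl i * (((e i * m : ℕ) : ℤ) - x) - 10) ≤
        ∑ x ∈ EL m χ i, gap m (χ x) x := by
      apply sum_le_sum
      intro x hx
      simp only [EL, mem_filter, mem_Icc] at hx
      have h1 := (hGAP m x (χ x) hm hx.1.1 hx.1.2 (colL m hm i x _ hx.2 hx.1.1)).2.1 i hx.2
      push_cast
      exact h1
    rw [sum_sub_distrib, ← mul_sum, sum_const, nsmul_eq_mul] at hR hL
    have h1 := sum_right (e i * m) (ER m χ i) (by
      intro x hx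
      simp only [ER, mem_filter, mem_Icc] at hx
      exact hx.2.1)
    have h2 := sum_left (e i * m) (EL m χ i) (by
      intro x hx
      simp only [EL, mem_filter, mem_Icc] at hx
      exact hx.2.1)
    have h3 := mul_le_mul_of_nonneg_left h1 (sl_nonneg i)
    have h4 := mul_le_mul_of_nonneg_left h2 (sl_nonneg i)
    have h5 : sl i * ((EL m χ i).card : ℤ) ≤ 3 * (EL m χ i).card :=
      mul_le_mul_of_nonneg_right (sl_le i) (by positivity)
    have h6 : (0 : ℤ) ≤ (ER m χ i).card := by positivity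
    have h7 : (0 : ℤ) ≤ (EL m χ i).card := by positivity
    linarith
  have hs := sum_le_sum (fun i (_ : i ∈ (univ : Finset (Fin 6))) => hi i)
  rw [sum_sub_distrib, ← mul_sum, ← mul_sum, ← hcard] at hs
  rw [← hcard] at hP
  have hk : ∑ i : Fin 6, ∑ j : Fin 6, kap i j * (((ER m χ i).card : ℤ) - (EL m χ i).card)
        * (((ER m χ j).card : ℤ) - (EL m χ j).card) =
      ∑ i : Fin 6, ∑ j : Fin 6, kap i j * ((fun i => ((ER m χ i).card : ℤ)) i
        - (fun i => ((EL m χ i).card : ℤ)) i) * ((fun i => ((ER m χ i).card : ℤ)) j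
        - (fun i => ((EL m χ i).card : ℤ)) j) := rfl
  have h0 : (0 : ℤ) ≤ (dif (67 * m) χ (col m)).card := by positivity
  rw [hQ] at hE
  linarith

end Pool.Agent.Helper8.LO
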